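import Pool.Agent.LibBary.Final

/-!
The conjectured characterisation of the equality case for the Poincare constant of Wasserstein
barycenters fails: a common curvature-saturating Gaussian factor does not imply equality.
-/

open MeasureTheory ProbabilityTheory Filter
open scoped ENNReal NNReal Topology

namespace Pool.Agent.Results.MP_7c2736_pr.CommonSplittingNoEquality

open Pool.Agent.LibBary

theorem result (n N : ℕ) (hn : 4 ≤ n) (hN : 3 ≤ N) :
    ∃ (lam κ : Fin N → ℝ) (μ : Fin N → Measure (EuclideanSpace ℝ (Fin n)))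
      (e : EuclideanSpace ℝ (Fin n)),
      (∀ i, 0 < lam i) ∧ ∑ i, lam i = 1 ∧ (∀ i, 0 < κ i) ∧
      (∀ i, IsStronglyLogConcave (κ i) (μ i)) ∧
      ‖e‖ = 1 ∧ (∀ i, SplitsOffGaussian (κ i) e (μ i)) ∧
      (∃ ν, IsBarycenter lam μ ν) ∧
      ∀ ν, IsBarycenter lam μ ν →
        poincareConstant ν ^ (1 / 2 : ℝ) ≠ ENNReal.ofReal (∑ i, lam i / √(κ i)) := by
  let i₀ : Fin n := ⟨0, by omega⟩
  let i₁ : Fin n := ⟨1, by omega⟩
  let i₂ : Fin n := ⟨2, by omega⟩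
  let i₃ : Fin n := ⟨3, by omega⟩
  have h01 : i₀ ≠ i₁ := by simp [i₀, i₁]
  have h02 : i₀ ≠ i₂ := by simp [i₀, i₂]
  have h12 : i₁ ≠ i₂ := by simp [i₁, i₂]
  have h03 : i₀ ≠ i₃ := by simp [i₀, i₃]
  have h13 : i₁ ≠ i₃ := by simp [i₁, i₃]
  have h23 : i₂ ≠ i₃ := by simp [i₂, i₃]
  obtain ⟨r, δ, h0, h1, hδ, hδ1, ⟨ν₀, hν₀⟩, hall⟩ := main_construction i₀ i₁ i₂ h01 h02 h12
  refine ⟨repW N (weights r), fun _ => 1, fun i => data i₀ i₁ i₂ r δ (rep N i),
    EuclideanSpace.single i₃ (1 : ℝ),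
    repW_pos hN (weights_pos h0 h1), ?_, fun _ => one_pos,
    fun i => data_slc i₀ i₁ i₂ h01 h02 h12 h0 h1 hδ hδ1 _, by simp,
    fun i => data_splits i₀ i₁ i₂ h01 h02 h12 r δ i₃ h03 h13 h23 _, ⟨ν₀, ?_⟩, ?_⟩
  · rw [sum_repW hN, sum_weights h1]
  · exact (isBarycenter_rep hN (weights r) (data i₀ i₁ i₂ r δ) ν₀).2 hν₀
  · intro ν hν
    have h := hall ν ((isBarycenter_rep hN (weights r) (data i₀ i₁ i₂ r δ) ν).1 hν)
    simp only [Real.sqrt_one, div_one, sum_repW hN, sum_weights h1, ENNReal.ofReal_one]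
    exact (ENNReal.one_lt_rpow h (by norm_num)).ne'

end Pool.Agent.Results.MP_7c2736_pr.CommonSplittingNoEquality
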