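import Pool.Agent.LibBary.Final

/-!
The conjectured bound for the Poincare constant of Wasserstein barycenters of strongly log-concave
measures fails for every number `N ≥ 3` of measures and in every dimension `n ≥ 3`.
-/

open MeasureTheory ProbabilityTheory Filter
open scoped ENNReal NNReal Topology

namespace Pool.Agent.Results.MP_7c2736_pr.PoincareBoundFails

open Pool.Agent.LibBary

theorem result (n N : ℕ) (hn : 3 ≤ n) (hN : 3 ≤ N) :
    ∃ (lam κ : Fin N → ℝ) (μ : Fin N → Measure (EuclideanSpace ℝ (Fin n))),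
      (∀ i, 0 < lam i) ∧ ∑ i, lam i = 1 ∧ (∀ i, κ i = 1) ∧
      (∀ i, IsStronglyLogConcave (κ i) (μ i)) ∧
      (∃ ν, IsBarycenter lam μ ν) ∧
      ∀ ν, IsBarycenter lam μ ν →
        ENNReal.ofReal (∑ i, lam i / √(κ i)) < poincareConstant ν ^ (1 / 2 : ℝ) := by
  let i₀ : Fin n := ⟨0, by omega⟩
  let i₁ : Fin n := ⟨1, by omega⟩
  let i₂ : Fin n := ⟨2, by omega⟩
  have h01 : i₀ ≠ i₁ := by simp [i₀, i₁]
  have h02 : i₀ ≠ i₂ := by simp [i₀, i₂]
  have h12 : i₁ ≠ i₂ := by simp [i₁, i₂]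
  obtain ⟨r, δ, h0, h1, hδ, hδ1, ⟨ν₀, hν₀⟩, hall⟩ := main_construction i₀ i₁ i₂ h01 h02 h12
  refine ⟨repW N (weights r), fun _ => 1, fun i => data i₀ i₁ i₂ r δ (rep N i),
    repW_pos hN (weights_pos h0 h1), ?_, fun _ => rfl,
    fun i => data_slc i₀ i₁ i₂ h01 h02 h12 h0 h1 hδ hδ1 _, ⟨ν₀, ?_⟩, ?_⟩
  · rw [sum_repW hN, sum_weights h1]
  · exact (isBarycenter_rep hN (weights r) (data i₀ i₁ i₂ r δ) ν₀).2 hν₀
  · intro ν hν
    have h := hall ν ((isBarycenter_rep hN (weights r) (data i₀ i₁ i₂ r δ) ν).1 hν)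
    simp only [Real.sqrt_one, div_one, sum_repW hN, sum_weights h1, ENNReal.ofReal_one]
    exact ENNReal.one_lt_rpow h (by norm_num)

end Pool.Agent.Results.MP_7c2736_pr.PoincareBoundFails
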